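import Mathlib
import Pool.Agent.Work.MP_e166ae_gt.Theta

set_option autoImplicit false

namespace Pool.Agent.Results.MP_e166ae_gt.NoMaximiser

open Real Filter Topology MeasureTheory

/-- `L` belongs to `𝓛_d(1)`: it is the integer span of the rows of a real `d × d` matrix
of determinant `± 1`. -/
def UnitLattice (d : ℕ) (L : Submodule ℤ (EuclideanSpace ℝ (Fin d))) : Prop :=
  ∃ u : Fin d → EuclideanSpace ℝ (Fin d),
    |Matrix.det (Matrix.of fun i j => u i j)| = 1 ∧ L = Submodule.span ℤ (Set.range u)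

/-- the translated lattice theta function. -/
noncomputable def theta {d : ℕ} (L : Submodule ℤ (EuclideanSpace ℝ (Fin d))) (α : ℝ)
    (y : EuclideanSpace ℝ (Fin d)) : ℝ :=
  ∑' p : L, Real.exp (-(π * α * ‖(p : EuclideanSpace ℝ (Fin d)) + y‖ ^ 2))

/-- `|∇ √θ|²` at `y`. -/
noncomputable def Q {d : ℕ} (L : Submodule ℤ (EuclideanSpace ℝ (Fin d))) (α : ℝ)
    (y : EuclideanSpace ℝ (Fin d)) : ℝ :=
  ‖gradient (fun z => Real.sqrt (theta L α z)) y‖ ^ 2

/-- the functional: integral of `Q` against the uniform probability measure on the closed ball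
of radius `R` centred at `0`. -/
noncomputable def F {d : ℕ} (α R : ℝ) (L : Submodule ℤ (EuclideanSpace ℝ (Fin d))) : ℝ :=
  ⨍ y in Metric.closedBall (0 : EuclideanSpace ℝ (Fin d)) R, Q L α y

open Pool.Agent.Work.MP_e166ae_gt

lemma hasSum_mul_aux {κ : Type*} (f : ℤ → ℝ) (g : κ → ℝ) (a b : ℝ) (hf : HasSum f a) (hg : HasSum g b)
    (f0 : ∀ m, 0 ≤ f m) (g0 : ∀ n, 0 ≤ g n) : HasSum (fun x : ℤ × κ => f x.1 * g x.2) (a * b) :=
  hf.mul hg (hf.summable.mul_of_nonneg hg.summable f0 g0)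

lemma hasSum_pi (d : ℕ) (f : Fin d → ℤ → ℝ) (hf : ∀ i, Summable (f i)) (h0 : ∀ i m, 0 ≤ f i m) :
    HasSum (fun n : Fin d → ℤ => ∏ i, f i (n i)) (∏ i, ∑' m, f i m) := by
  induction d with
  | zero =>
    simp only [Finset.univ_eq_empty, Finset.prod_empty]
    simp
  | succ d ih =>
    have h1 := ih (fun i => f i.succ) (fun i => hf _) (fun i m => h0 _ _)
    have h2 := (hf 0).hasSum
    have hB0 : ∀ n : Fin d → ℤ, 0 ≤ ∏ i : Fin d, f i.succ (n i) := fun n =>
      Finset.prod_nonneg (fun i _ => h0 i.succ (n i))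
    have h4 := hasSum_mul_aux _ _ _ _ h2 h1 (h0 0) hB0
    rw [Fin.prod_univ_succ]
    have h5 : ((fun n : Fin (d + 1) → ℤ => ∏ i, f i (n i)) ∘ (Fin.consEquiv (fun _ : Fin (d + 1) => ℤ)))
        = fun x : ℤ × (Fin d → ℤ) => f 0 x.1 * ∏ i : Fin d, f i.succ (x.2 i) := by
      funext x
      simp only [Function.comp_apply, Fin.prod_univ_succ]
      rfl
    rw [← (Fin.consEquiv (fun _ : Fin (d + 1) => ℤ)).hasSum_iff, h5]
    exact h4

/-- diagonal lattice -/
noncomputable def ud {d : ℕ} (c : Fin d → ℝ) (i : Fin d) : EuclideanSpace ℝ (Fin d) :=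
  EuclideanSpace.single i (c i)

noncomputable def Ld {d : ℕ} (c : Fin d → ℝ) : Submodule ℤ (EuclideanSpace ℝ (Fin d)) :=
  Submodule.span ℤ (Set.range (ud c))

lemma unit_Ld {d : ℕ} (c : Fin d → ℝ) (hc : ∏ i, c i = 1) : UnitLattice d (Ld c) := by
  refine ⟨ud c, ?_, rfl⟩
  have : (Matrix.of fun i j => ud c i j) = Matrix.diagonal c := by
    ext i j
    simp only [ud, Matrix.of_apply, PiLp.single_apply, Matrix.diagonal_apply]
    by_cases h : j = i
    · subst h; simp
    · simp [h, Ne.symm h]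
  rw [this, Matrix.det_diagonal, hc, abs_one]

lemma sum_ud_apply {d : ℕ} (c : Fin d → ℝ) (n : Fin d → ℤ) (j : Fin d) :
    (∑ i, n i • ud c i) j = n j * c j := by
  simp only [ud, WithLp.ofLp_sum, Finset.sum_apply, PiLp.smul_apply, PiLp.single_apply, smul_ite, smul_zero,
    Finset.sum_ite_eq, Finset.mem_univ, if_true, zsmul_eq_mul]

noncomputable def eqv {d : ℕ} (c : Fin d → ℝ) (hc : ∀ i, c i ≠ 0) : (Fin d → ℤ) ≃ Ld c :=
  Equiv.ofBijective
    (fun n => ⟨∑ i, n i • ud c i,
      Submodule.sum_mem _ fun i _ => Submodule.smul_mem _ _ (Submodule.subset_span ⟨i, rfl⟩)⟩)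
    (by
      constructor
      · intro n m h
        funext j
        have h1 := congrArg (fun p : Ld c => (p : EuclideanSpace ℝ (Fin d)) j) h
        simp only [sum_ud_apply] at h1
        have := mul_right_cancel₀ (hc j) h1
        exact_mod_cast this
      · rintro ⟨p, hp⟩
        obtain ⟨n, hn⟩ := (Submodule.mem_span_range_iff_exists_fun ℤ).mp hp
        exact ⟨n, Subtype.ext hn⟩)

lemma theta_Ld {d : ℕ} (c : Fin d → ℝ) (hc : ∀ i, 0 < c i) {α : ℝ} (hα : 0 < α)
    (y : EuclideanSpace ℝ (Fin d)) : theta (Ld c) α y = ∏ i, th α (c i) (y i) := by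
  have h := hasSum_pi d (fun i m => g α (c i) m (y i)) (fun i => summable_g hα (hc i) _)
    (fun i m => (Real.exp_pos _).le)
  have h2 : theta (Ld c) α y = ∑' n : Fin d → ℤ, ∏ i, g α (c i) (n i) (y i) := by
    unfold theta
    rw [← (eqv c (fun i => (hc i).ne')).tsum_eq]
    congr 1
    funext n
    unfold g
    rw [← Real.exp_sum]
    congr 1
    rw [EuclideanSpace.norm_sq_eq, Finset.mul_sum, ← Finset.sum_neg_distrib]
    refine Finset.sum_congr rfl fun i _ => ?_
    have : ((eqv c (fun i => (hc i).ne') n : Ld c) : EuclideanSpace ℝ (Fin d)) = ∑ i, n i • ud c i := rfl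
    rw [this, PiLp.add_apply, sum_ud_apply, Real.norm_eq_abs, sq_abs]
  rw [h2, h.tsum_eq]
  rfl

lemma sqrt_theta_Ld {d : ℕ} (c : Fin d → ℝ) (hc : ∀ i, 0 < c i) {α : ℝ} (hα : 0 < α) :
    (fun y => Real.sqrt (theta (Ld c) α y)) = fun y => ∏ i, s α (c i) (y i) := by
  funext y
  rw [theta_Ld c hc hα]
  have h1 : ∏ i, th α (c i) (y i) = (∏ i, s α (c i) (y i)) ^ 2 := by
    rw [← Finset.prod_pow]
    refine Finset.prod_congr rfl fun i _ => ?_
    exact (Real.sq_sqrt (th_pos hα (hc i) _).le).symm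
  rw [h1, Real.sqrt_sq]
  exact Finset.prod_nonneg fun i _ => (s_pos hα (hc i) _).le

lemma contDiff_f {d : ℕ} (c : Fin d → ℝ) (hc : ∀ i, 0 < c i) {α : ℝ} (hα : 0 < α) :
    ContDiff ℝ 1 (fun y : EuclideanSpace ℝ (Fin d) => ∏ i, s α (c i) (y i)) := by
  refine contDiff_prod fun i _ => ?_
  exact (contDiff_s hα (hc i)).comp (by fun_prop)

lemma norm_gradient {d : ℕ} (f : EuclideanSpace ℝ (Fin d) → ℝ) (y : EuclideanSpace ℝ (Fin d)) :
    ‖gradient f y‖ = ‖fderiv ℝ f y‖ := by
  rw [← toDual_gradient, LinearIsometryEquiv.norm_map]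

lemma continuous_Q {d : ℕ} (c : Fin d → ℝ) (hc : ∀ i, 0 < c i) {α : ℝ} (hα : 0 < α) :
    Continuous (Q (Ld c) α) := by
  unfold Q
  simp_rw [norm_gradient, sqrt_theta_Ld c hc hα]
  exact ((contDiff_f c hc hα).continuous_fderiv (by norm_num)).norm.pow 2

/-- the coefficients of the elongated lattice -/
noncomputable def cN (k N : ℕ) : Fin (k + 2) → ℝ :=
  Fin.cons (1 / N : ℝ) (Fin.cons (N : ℝ) (fun _ => 1))

lemma cN_pos (k N : ℕ) (hN : 0 < N) (i : Fin (k + 2)) : 0 < cN k N i := by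
  have : (0 : ℝ) < N := by exact_mod_cast hN
  refine Fin.cases ?_ (fun i => Fin.cases ?_ (fun i => ?_) i) i
  · simp [cN, this]
  · simp [cN, this]
  · simp [cN]

lemma cN_prod (k N : ℕ) (hN : 0 < N) : ∏ i, cN k N i = 1 := by
  have : (0 : ℝ) < N := by exact_mod_cast hN
  simp only [cN, Fin.prod_univ_succ, Fin.cons_zero, Fin.cons_succ, Finset.prod_const_one]
  field_simp

lemma Q_lower (k N : ℕ) (hN : 0 < N) {α : ℝ} (hα : 0 < α) (y : EuclideanSpace ℝ (Fin (k + 2))) :
    (N : ℝ) * Real.exp (-(π * α)) ^ (k + 1) * (deriv (s α N) (y 1)) ^ 2 ≤ Q (Ld (cN k N)) α y := by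
  have hc := cN_pos k N hN
  have hN' : (0 : ℝ) < N := by exact_mod_cast hN
  set f := (fun y : EuclideanSpace ℝ (Fin (k + 2)) => ∏ i, s α (cN k N i) (y i)) with hf
  have hfd : HasFDerivAt f (fderiv ℝ f y) y :=
    ((contDiff_f _ hc hα).differentiable (by norm_num) y).hasFDerivAt
  set e : EuclideanSpace ℝ (Fin (k + 2)) := EuclideanSpace.single 1 1 with he
  have hnorm : ‖e‖ = 1 := by simp [he]
  set P : ℝ := s α (1 / N) (y 0) * ∏ j : Fin k, s α 1 (y j.succ.succ) with hP
  -- derivative along e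
  have hline : HasDerivAt (fun t : ℝ => f (y + t • e)) (fderiv ℝ f y e) 0 := by
    have h1 : HasDerivAt (fun t : ℝ => y + t • e) e 0 := by
      simpa using ((hasDerivAt_id (0 : ℝ)).smul_const e).const_add y
    have h2 : HasFDerivAt f (fderiv ℝ f y) (y + (0 : ℝ) • e) := by simpa using hfd
    exact h2.comp_hasDerivAt 0 h1
  have hline2 : HasDerivAt (fun t : ℝ => f (y + t • e)) (P * deriv (s α N) (y 1)) 0 := by
    have h1 : (fun t : ℝ => f (y + t • e)) = fun t => P * s α N (y 1 + t) := by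
      funext t
      have e0 : (y + t • e) 0 = y 0 := by simp [he]
      have e1 : (y + t • e) 1 = y 1 + t := by simp [he]
      have e2 : ∀ j : Fin k, (y + t • e) j.succ.succ = y j.succ.succ := by
        intro j
        have : j.succ.succ ≠ (1 : Fin (k + 2)) := by
          intro h
          have := congrArg Fin.val h
          simp at this
        simp [he, this]
      have e3 : ∏ i, s α (cN k N i) ((y + t • e) i) =
          s α (1 / N) ((y + t • e) 0) * (s α N ((y + t • e) 1) *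
            ∏ j : Fin k, s α 1 ((y + t • e) j.succ.succ)) := by
        rw [Fin.prod_univ_succ, Fin.prod_univ_succ]
        rfl
      show ∏ i, s α (cN k N i) ((y + t • e) i) = _
      rw [e3, e0, e1]
      simp_rw [e2]
      rw [hP]; ring
    rw [h1]
    have h2 : HasDerivAt (s α N) (deriv (s α N) (y 1)) (y 1 + 0) := by
      rw [add_zero]
      exact (hasDerivAt_s hα hN' (y 1)).differentiableAt.hasDerivAt
    exact (h2.comp_const_add (y 1) 0).const_mul P
  have heq := hline.unique hline2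
  have hQ : Q (Ld (cN k N)) α y = ‖fderiv ℝ f y‖ ^ 2 := by
    unfold Q
    rw [norm_gradient, sqrt_theta_Ld _ hc hα]
  rw [hQ]
  have h3 : |P * deriv (s α N) (y 1)| ≤ ‖fderiv ℝ f y‖ := by
    rw [← heq]
    have := (fderiv ℝ f y).le_opNorm e
    rw [hnorm, mul_one] at this
    exact this
  have h4 : (P * deriv (s α N) (y 1)) ^ 2 ≤ ‖fderiv ℝ f y‖ ^ 2 := by
    rw [← sq_abs]
    exact pow_le_pow_left₀ (abs_nonneg _) h3 2
  refine le_trans ?_ h4
  rw [mul_pow]
  apply mul_le_mul_of_nonneg_right _ (sq_nonneg _)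
  -- P² lower bound
  have hs : ∀ a : ℝ, 0 < a → ∀ t, s α a t ^ 2 = th α a t := fun a ha t =>
    Real.sq_sqrt (th_pos hα ha t).le
  rw [hP, mul_pow, ← Finset.prod_pow, hs _ (by positivity)]
  simp_rw [hs 1 one_pos]
  have h5 := th_lower hα N hN (y 0)
  have h6 : ∏ j : Fin k, Real.exp (-(π * α)) ≤ ∏ j : Fin k, th α 1 (y j.succ.succ) := by
    refine Finset.prod_le_prod (fun _ _ => (Real.exp_pos _).le) (fun j _ => ?_)
    have := th_lower hα 1 one_pos (y j.succ.succ)
    simpa using this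
  rw [Finset.prod_const, Finset.card_univ, Fintype.card_fin] at h6
  calc (N : ℝ) * Real.exp (-(π * α)) ^ (k + 1)
      = (N * Real.exp (-(π * α))) * Real.exp (-(π * α)) ^ k := by ring
    _ ≤ _ := mul_le_mul h5 h6 (by positivity) (th_pos hα (by positivity) _).le

/-- the limit of the derivative of `s α N` -/
noncomputable def ell (α t : ℝ) : ℝ :=
  -(2 * π * α * t) * Real.exp (-(π * α * t ^ 2)) / (2 * Real.sqrt (Real.exp (-(π * α * t ^ 2))))

lemma continuous_ell (α : ℝ) : Continuous (ell α) := by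
  unfold ell
  refine Continuous.div (by fun_prop) (by fun_prop) (fun t => ?_)
  have := Real.sqrt_pos.mpr (Real.exp_pos (-(π * α * t ^ 2)))
  positivity

lemma ell_ne {α : ℝ} (hα : 0 < α) {t : ℝ} (ht : t ≠ 0) : ell α t ≠ 0 := by
  unfold ell
  have := Real.sqrt_pos.mpr (Real.exp_pos (-(π * α * t ^ 2)))
  have h2 : 2 * π * α * t ≠ 0 := mul_ne_zero (by positivity) ht
  have h3 := Real.exp_pos (-(π * α * t ^ 2))
  refine div_ne_zero (mul_ne_zero (neg_ne_zero.mpr h2) h3.ne') (by positivity)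

lemma deriv_s_bound {α B : ℝ} (hα : 0 < α) (hB : 0 ≤ B) : ∃ K : ℝ, ∀ N : ℕ, 0 < N → ∀ t : ℝ, |t| ≤ B →
    |deriv (s α N) t| ≤ K := by
  refine ⟨(∑' n, bd α B 1 n) / (2 * Real.sqrt (Real.exp (-(π * α * B ^ 2)))), ?_⟩
  intro N hN t ht
  have hN' : (0 : ℝ) < N := by exact_mod_cast hN
  have hN1 : (1 : ℝ) ≤ N := by exact_mod_cast hN
  rw [(hasDerivAt_s hα hN' t).deriv, abs_div]
  have h1 : |th' α N t| ≤ ∑' n, bd α B 1 n := by
    unfold th'
    have := norm_tsum_le_tsum_norm (summable_g' hα hN' t).norm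
    refine this.trans ?_
    exact Summable.tsum_le_tsum (fun n => g'_le hα one_pos hN1 ht n) (summable_g' hα hN' t).norm
      (summable_bd hα one_pos)
  have h2 : Real.sqrt (Real.exp (-(π * α * B ^ 2))) ≤ s α N t := by
    apply Real.sqrt_le_sqrt
    have h3 : g α N 0 t ≤ th α N t :=
      (summable_g hα hN' t).le_tsum 0 (fun _ _ => (Real.exp_pos _).le)
    refine le_trans ?_ h3
    unfold g
    apply Real.exp_le_exp.mpr
    have : t ^ 2 ≤ B ^ 2 := sq_le_sq' (by linarith [abs_le.mp ht]) (abs_le.mp ht).2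
    have hp : 0 < π * α := by positivity
    simp only [Int.cast_zero, zero_mul, zero_add]
    nlinarith
  have h4 : 0 < Real.sqrt (Real.exp (-(π * α * B ^ 2))) := Real.sqrt_pos.mpr (Real.exp_pos _)
  have h5 : 0 < s α N t := s_pos hα hN' t
  rw [abs_of_pos (by positivity : 0 < 2 * s α N t)]
  have h6 : 0 ≤ ∑' n, bd α B 1 n := le_trans (abs_nonneg _) h1
  exact div_le_div₀ h6 h1 (by positivity) (by linarith)

lemma tendsto_J (k : ℕ) {α R : ℝ} (hα : 0 < α) (hR : 0 < R) :
    Tendsto (fun N : ℕ => ∫ y in Metric.closedBall (0 : EuclideanSpace ℝ (Fin (k + 2))) R,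
      (deriv (s α N) (y 1)) ^ 2) atTop
      (𝓝 (∫ y in Metric.closedBall (0 : EuclideanSpace ℝ (Fin (k + 2))) R, (ell α (y 1)) ^ 2)) := by
  obtain ⟨K, hK⟩ := deriv_s_bound (B := R) hα hR.le
  rw [← tendsto_add_atTop_iff_nat 1]
  refine tendsto_integral_of_dominated_convergence (fun _ => K ^ 2) ?_ ?_ ?_ ?_
  · intro n
    have hn : (0 : ℝ) < ((n + 1 : ℕ) : ℝ) := by positivity
    have h1 : Continuous fun y : EuclideanSpace ℝ (Fin (k + 2)) => deriv (s α ((n + 1 : ℕ) : ℝ)) (y 1) :=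
      ((contDiff_one_iff_deriv.mp (contDiff_s hα hn)).2).comp (by fun_prop)
    exact (h1.pow 2).aestronglyMeasurable
  · exact integrableOn_const (measure_closedBall_lt_top.ne)
  · intro n
    rw [ae_restrict_iff' Metric.isClosed_closedBall.measurableSet]
    refine Eventually.of_forall fun y hy => ?_
    have h1 : |y 1| ≤ R := by
      have h2 : ‖y‖ ≤ R := by simpa using hy
      exact (PiLp.norm_apply_le y 1).trans h2
    have h3 := hK (n + 1) (Nat.succ_pos n) (y 1) h1
    rw [Real.norm_eq_abs, abs_pow]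
    exact pow_le_pow_left₀ (abs_nonneg _) h3 2
  · refine Eventually.of_forall fun y => ?_
    have := (tendsto_ds hα (y 1)).pow 2
    exact (tendsto_add_atTop_iff_nat 1).mpr this

lemma J_pos (k : ℕ) {α R : ℝ} (hα : 0 < α) (hR : 0 < R) :
    0 < ∫ y in Metric.closedBall (0 : EuclideanSpace ℝ (Fin (k + 2))) R, (ell α (y 1)) ^ 2 := by
  have hcont : Continuous fun y : EuclideanSpace ℝ (Fin (k + 2)) => (ell α (y 1)) ^ 2 :=
    ((continuous_ell α).comp (by fun_prop)).pow 2
  rw [setIntegral_pos_iff_support_of_nonneg_ae]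
  · set p : EuclideanSpace ℝ (Fin (k + 2)) := EuclideanSpace.single 1 (R / 2) with hp
    have hsub : Metric.ball p (R / 4) ⊆
        Function.support (fun y : EuclideanSpace ℝ (Fin (k + 2)) => (ell α (y 1)) ^ 2) ∩
          Metric.closedBall 0 R := by
      intro y hy
      rw [Metric.mem_ball, dist_eq_norm] at hy
      have h1 : |(y - p) 1| ≤ ‖y - p‖ := PiLp.norm_apply_le (y - p) 1
      have h2 : (y - p) 1 = y 1 - R / 2 := by simp [hp]
      rw [h2] at h1
      have h3 := abs_lt.mp (lt_of_le_of_lt h1 hy)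
      refine ⟨?_, ?_⟩
      · rw [Function.mem_support]
        exact pow_ne_zero 2 (ell_ne hα (by linarith [h3.1]))
      · rw [Metric.mem_closedBall, dist_zero_right]
        have h4 : ‖p‖ = R / 2 := by
          simp [hp, abs_of_pos hR]
        calc ‖y‖ = ‖(y - p) + p‖ := by rw [sub_add_cancel]
          _ ≤ ‖y - p‖ + ‖p‖ := norm_add_le _ _
          _ ≤ R := by rw [h4]; linarith
    exact lt_of_lt_of_le (Metric.measure_ball_pos volume p (by positivity)) (measure_mono hsub)
  · exact Eventually.of_forall fun y => sq_nonneg _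
  · exact hcont.continuousOn.integrableOn_compact (isCompact_closedBall _ _)

lemma tendsto_F (k : ℕ) {α R : ℝ} (hα : 0 < α) (hR : 0 < R) :
    Tendsto (fun N : ℕ => F α R (Ld (cN k N))) atTop atTop := by
  set B := Metric.closedBall (0 : EuclideanSpace ℝ (Fin (k + 2))) R
  have hvol : 0 < volume.real B := by
    rw [measureReal_def]
    exact ENNReal.toReal_pos (Metric.measure_closedBall_pos volume _ hR).ne'
      (measure_closedBall_lt_top.ne)
  have hE : 0 < Real.exp (-(π * α)) ^ (k + 1) := by positivity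
  have h1 : Tendsto (fun N : ℕ => (volume.real B)⁻¹ * (((N : ℝ) * Real.exp (-(π * α)) ^ (k + 1)) *
      ∫ y in B, (deriv (s α N) (y 1)) ^ 2)) atTop atTop := by
    apply Tendsto.const_mul_atTop (inv_pos.mpr hvol)
    apply Tendsto.atTop_mul_pos (J_pos k hα hR) _ (tendsto_J k hα hR)
    exact tendsto_natCast_atTop_atTop.atTop_mul_const hE
  refine tendsto_atTop_mono' _ ?_ h1
  filter_upwards [eventually_gt_atTop 0] with N hN
  unfold F
  rw [setAverage_eq, smul_eq_mul]
  apply mul_le_mul_of_nonneg_left _ (inv_pos.mpr hvol).le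
  rw [← integral_const_mul]
  have hN' : (0 : ℝ) < N := by exact_mod_cast hN
  have hc : Continuous fun y : EuclideanSpace ℝ (Fin (k + 2)) => deriv (s α N) (y 1) :=
    ((contDiff_one_iff_deriv.mp (contDiff_s hα hN')).2).comp (by fun_prop)
  refine setIntegral_mono_on ?_ ?_ Metric.isClosed_closedBall.measurableSet
    (fun y _ => Q_lower k N hN hα y)
  · exact ((continuous_const.mul (hc.pow 2)).continuousOn).integrableOn_compact (isCompact_closedBall _ _)
  · exact (continuous_Q _ (cN_pos k N hN) hα).continuousOn.integrableOn_compact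
      (isCompact_closedBall _ _)

/-- the image of a lattice under a linear isometry -/
noncomputable def image {d : ℕ} (A : EuclideanSpace ℝ (Fin d) ≃ₗᵢ[ℝ] EuclideanSpace ℝ (Fin d))
    (L : Submodule ℤ (EuclideanSpace ℝ (Fin d))) : Submodule ℤ (EuclideanSpace ℝ (Fin d)) :=
  L.map (A.toLinearEquiv.toLinearMap.restrictScalars ℤ)

lemma theta_image {d : ℕ} (A : EuclideanSpace ℝ (Fin d) ≃ₗᵢ[ℝ] EuclideanSpace ℝ (Fin d))
    (L : Submodule ℤ (EuclideanSpace ℝ (Fin d))) (α : ℝ) (y : EuclideanSpace ℝ (Fin d)) :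
    theta (image A L) α y = theta L α (A.symm y) := by
  unfold theta
  let e : L ≃ image A L := Equiv.ofBijective
    (fun p => ⟨A p, Submodule.mem_map.mpr ⟨p, p.2, rfl⟩⟩) (by
      constructor
      · intro p q h
        have := congrArg Subtype.val h
        exact Subtype.ext (A.injective this)
      · rintro ⟨q, hq⟩
        obtain ⟨p, hp, rfl⟩ := Submodule.mem_map.mp hq
        exact ⟨⟨p, hp⟩, rfl⟩)
  rw [← e.tsum_eq]
  congr 1
  funext p
  have h1 : ((e p : image A L) : EuclideanSpace ℝ (Fin d)) = A p := rfl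
  rw [h1]
  have h2 : A (p : EuclideanSpace ℝ (Fin d)) + y = A ((p : EuclideanSpace ℝ (Fin d)) + A.symm y) := by
    rw [map_add, LinearIsometryEquiv.apply_symm_apply]
  rw [h2, LinearIsometryEquiv.norm_map]

lemma Q_image {d : ℕ} (A : EuclideanSpace ℝ (Fin d) ≃ₗᵢ[ℝ] EuclideanSpace ℝ (Fin d))
    (L : Submodule ℤ (EuclideanSpace ℝ (Fin d))) (α : ℝ) (y : EuclideanSpace ℝ (Fin d)) :
    Q (image A L) α y = Q L α (A.symm y) := by
  unfold Q
  simp_rw [norm_gradient, theta_image]
  have h1 : (fun z => Real.sqrt (theta L α (A.symm z))) =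
      (fun z => Real.sqrt (theta L α z)) ∘ A.symm := rfl
  have h2 : fderiv ℝ ((fun z => Real.sqrt (theta L α z)) ∘ A.symm) y =
      (fderiv ℝ (fun z => Real.sqrt (theta L α z)) (A.symm y)).comp
        (A.symm.toContinuousLinearEquiv : EuclideanSpace ℝ (Fin d) →L[ℝ] EuclideanSpace ℝ (Fin d)) :=
    A.symm.toContinuousLinearEquiv.comp_right_fderiv
  rw [h1, h2]
  congr 1
  exact ContinuousLinearMap.opNorm_comp_linearIsometryEquiv _ A.symm

lemma F_image {d : ℕ} (A : EuclideanSpace ℝ (Fin d) ≃ₗᵢ[ℝ] EuclideanSpace ℝ (Fin d))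
    (L : Submodule ℤ (EuclideanSpace ℝ (Fin d))) (α R : ℝ) :
    F α R (image A L) = F α R L := by
  unfold F
  rw [setAverage_eq, setAverage_eq]
  congr 1
  simp_rw [Q_image]
  have h1 : Metric.closedBall (0 : EuclideanSpace ℝ (Fin d)) R =
      A.symm ⁻¹' Metric.closedBall (0 : EuclideanSpace ℝ (Fin d)) R := by
    ext y; simp
  conv_lhs => rw [h1]
  exact A.symm.measurePreserving.setIntegral_preimage_emb
    A.symm.toHomeomorph.measurableEmbedding _ _

/-- In every dimension `d ≥ 2`, for every `α > 0` and `R > 0`, the functional is unbounded above on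
`𝓛_d(1)`, so no lattice is a maximiser: for every `L₀` (for instance the triangular lattice when
`d = 2`, the face-centred cubic lattice when `d = 3`) and every real `C` some `L ∈ 𝓛_d(1)`, which is
not an orthogonal image of `L₀`, has `F L > F L₀` and `F L > C`. -/
theorem result (d : ℕ) (hd : 2 ≤ d) (α R : ℝ) (hα : 0 < α) (hR : 0 < R)
    (L₀ : Submodule ℤ (EuclideanSpace ℝ (Fin d))) (C : ℝ) :
    ∃ L : Submodule ℤ (EuclideanSpace ℝ (Fin d)), UnitLattice d L ∧
      (∀ A : EuclideanSpace ℝ (Fin d) ≃ₗᵢ[ℝ] EuclideanSpace ℝ (Fin d), L ≠ image A L₀) ∧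
      F α R L₀ < F α R L ∧ C < F α R L := by
  obtain ⟨k, rfl⟩ : ∃ k, d = k + 2 := ⟨d - 2, by omega⟩
  have h := tendsto_F k hα hR
  obtain ⟨N, hN, h1, h2⟩ := ((eventually_gt_atTop 0).and
    ((h.eventually_gt_atTop (F α R L₀)).and (h.eventually_gt_atTop C))).exists
  refine ⟨Ld (cN k N), unit_Ld _ (cN_prod k N hN), ?_, h1, h2⟩
  intro A hA
  rw [hA, F_image] at h1
  exact lt_irrefl _ h1

end Pool.Agent.Results.MP_e166ae_gt.NoMaximiser
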